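import Pool.Agent.W203.SP.Stm

set_option autoImplicit false

namespace Pool.Agent.W748.SP

open MeasureTheory Set Complex Filter
open scoped ENNReal NNReal FourierTransform RealInnerProductSpace ContDiff SchwartzMap
open Pool.Agent.W203.SP

theorem t_K7 : S_K7 := by
  intro g hg hc
  let f : 𝓢(ℝ, ℂ) := hc.toSchwartzMap hg
  have hf : (f : ℝ → ℂ) = g := rfl
  have hF : 𝓕 g = ((𝓕 f : 𝓢(ℝ, ℂ)) : ℝ → ℂ) := by
    rw [SchwartzMap.fourier_coe, hf]
  rw [hF]
  refine ⟨(𝓕 f).continuous, (𝓕 f).integrable, ?_⟩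
  intro N
  refine ⟨2 ^ N * (Finset.Iic (N, 0)).sup (fun m => SchwartzMap.seminorm ℝ m.1 m.2) (𝓕 f),
    by positivity, ?_⟩
  intro z
  have h := SchwartzMap.one_add_le_sup_seminorm_apply (𝕜 := ℝ) (m := (N, 0)) (k := N) (n := 0)
    le_rfl le_rfl (𝓕 f) z
  rw [norm_iteratedFDeriv_zero, Real.norm_eq_abs] at h
  have h0 : (0 : ℝ) < 1 + |z| := by positivity
  rw [Real.rpow_neg h0.le, Real.rpow_natCast, ← div_eq_mul_inv, le_div_iff₀ (by positivity),
    mul_comm]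
  exact h

end Pool.Agent.W748.SP
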